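import Pool.Agent.Helper40.OL.Spec

set_option autoImplicit false

namespace Pool.Agent.Helper34.OL

open Pool.Agent.Helper40.OL

lemma PL_d {g : E} (h : PL g) (hf : g.f = 1) : ∀ s, g.d s = 0 := by
  intro s
  obtain ⟨-, -, -, -, h5⟩ := h
  obtain ⟨ρ, l, hd, ε, hε, h1, h2⟩ := h5 s
  have e : ∀ t, g.f⁻¹ t = t := by
    intro t
    rw [hf]
    simp
  have h3 := h1 (s + ε) (by linarith) le_rfl
  have h4 := h2 (s - ε) le_rfl (by linarith)
  rw [e, e] at h3 h4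
  have h5 : (2 : ℝ) ^ ρ = 1 := by
    have : (2 : ℝ) ^ ρ * ε = 1 * ε := by linarith
    exact mul_right_cancel₀ hε.ne' this
  have h6 : (2 : ℝ) ^ l = 1 := by
    have : (2 : ℝ) ^ l * ε = 1 * ε := by linarith
    exact mul_right_cancel₀ hε.ne' this
  have h7 : ρ = 0 := by
    have := zpow_right_injective₀ (a := (2 : ℝ)) (by norm_num) (by norm_num)
      (show (2 : ℝ) ^ ρ = (2 : ℝ) ^ (0 : ℤ) by rw [h5, zpow_zero])
    exact this
  have h8 : l = 0 := by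
    have := zpow_right_injective₀ (a := (2 : ℝ)) (by norm_num) (by norm_num)
      (show (2 : ℝ) ^ l = (2 : ℝ) ^ (0 : ℤ) by rw [h6, zpow_zero])
    exact this
  rw [hd, h7, h8, sub_zero]

lemma comm_of_f {a b : E} (ha : PL a) (hb : PL b) (hfa : a.f = 1) (hfb : b.f = 1) :
    a * b = b * a := by
  have da := PL_d ha hfa
  have db := PL_d hb hfb
  ext s
  · simp [hfa, hfb]
  · simp [da, db]
  · simp [hfa, hfb, da, db, add_comm]

theorem nof_thm (hPL : S_PL) (hCOMM : S_COMM) (hDISJ : S_DISJ) (hTHF : S_THF) : S_NOF := by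
  rintro ⟨φ, hφ⟩
  obtain ⟨a₁, a₂, a₃, a₄, b₁, b₂, hab, hc, hb⟩ := hTHF
  have pl : ∀ x : ThF, PL ((φ x : Gam 1) : E) := fun x => hPL _ (φ x).2
  have hinj : ∀ x y : ThF, ((φ x : Gam 1) : E) = ((φ y : Gam 1) : E) → x = y := fun x y h =>
    hφ (Subtype.ext h)
  have hcomm : ∀ x y : ThF, x * y ≠ y * x →
      ((φ x : Gam 1) : E).f ≠ 1 ∨ ((φ y : Gam 1) : E).f ≠ 1 := by
    intro x y hxy
    by_contra hcon
    push Not at hcon
    refine hxy (hinj _ _ ?_)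
    rw [map_mul, map_mul, Subgroup.coe_mul, Subgroup.coe_mul]
    exact comm_of_f (pl x) (pl y) hcon.1 hcon.2
  have key : ∀ x y b : ThF, x * b = b * x → y * b = b * y →
      ((φ (x * y * x⁻¹ * y⁻¹) : Gam 1) : E).f ≠ 1 → ((φ b : Gam 1) : E).f ≠ 1 → False := by
    intro x y b hxb hyb h1 h2
    have c1 : ((φ x : Gam 1) : E) * ((φ b : Gam 1) : E) = ((φ b : Gam 1) : E) * ((φ x : Gam 1) : E) := by
      rw [← Subgroup.coe_mul, ← Subgroup.coe_mul, ← map_mul, ← map_mul, hxb]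
    have c2 : ((φ y : Gam 1) : E) * ((φ b : Gam 1) : E) = ((φ b : Gam 1) : E) * ((φ y : Gam 1) : E) := by
      rw [← Subgroup.coe_mul, ← Subgroup.coe_mul, ← map_mul, ← map_mul, hyb]
    have f1 := congrArg E.f c1
    have f2 := congrArg E.f c2
    rw [E.mul_f, E.mul_f] at f1 f2
    have h3 := hDISJ _ _ _ (pl x) (pl y) (pl b) f1 f2
    have e1 : ((φ (x * y * x⁻¹ * y⁻¹) : Gam 1) : E).f =
        ((φ x : Gam 1) : E).f * ((φ y : Gam 1) : E).f * ((φ x : Gam 1) : E).f⁻¹ *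
          ((φ y : Gam 1) : E).f⁻¹ := by
      simp only [map_mul, map_inv, Subgroup.coe_mul, Subgroup.coe_inv, E.mul_f, E.inv_f]
    refine hCOMM _ _ (pl (x * y * x⁻¹ * y⁻¹)) (pl b) h1 h2 ?_ ?_
    · intro s
      by_cases hs : ((φ b : Gam 1) : E).f s = s
      · exact Or.inr hs
      · left
        rw [e1]
        exact h3 s hs
    · rw [← Subgroup.coe_mul, ← Subgroup.coe_mul, ← map_mul, ← map_mul]
      congr 2
      have hx' : x⁻¹ * b = b * x⁻¹ := by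
        rw [inv_mul_eq_iff_eq_mul, ← mul_assoc, hxb, mul_assoc, mul_inv_cancel, mul_one]
      have hy' : y⁻¹ * b = b * y⁻¹ := by
        rw [inv_mul_eq_iff_eq_mul, ← mul_assoc, hyb, mul_assoc, mul_inv_cancel, mul_one]
      calc x * y * x⁻¹ * y⁻¹ * b = x * y * x⁻¹ * (y⁻¹ * b) := by rw [mul_assoc]
        _ = x * y * (x⁻¹ * b) * y⁻¹ := by rw [hy']; simp only [mul_assoc]
        _ = x * (y * b) * x⁻¹ * y⁻¹ := by rw [hx']; simp only [mul_assoc]
        _ = (x * b) * y * x⁻¹ * y⁻¹ := by rw [hyb]; simp only [mul_assoc]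
        _ = b * (x * y * x⁻¹ * y⁻¹) := by rw [hxb]; simp only [mul_assoc]
  have hB : ∃ b : ThF, (b = b₁ ∨ b = b₂) ∧ ((φ b : Gam 1) : E).f ≠ 1 := by
    rcases hcomm b₁ b₂ hb with h | h
    · exact ⟨b₁, Or.inl rfl, h⟩
    · exact ⟨b₂, Or.inr rfl, h⟩
  obtain ⟨b, hbb, hbf⟩ := hB
  have hmem : b ∈ [b₁, b₂] := by
    rcases hbb with rfl | rfl <;> simp
  rcases hcomm _ _ hc with h | h
  · exact key a₁ a₂ b (hab a₁ (by simp) b hmem) (hab a₂ (by simp) b hmem) h hbf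
  · exact key a₃ a₄ b (hab a₃ (by simp) b hmem) (hab a₄ (by simp) b hmem) h hbf

end Pool.Agent.Helper34.OL
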