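import Pool.Agent.Helper40.OL.Spec

set_option autoImplicit false

namespace Pool.Agent.Helper34.OL

open Pool.Agent.Helper40.OL

/-- a bump -/
noncomputable def bf (p w x : ℝ) : ℝ :=
  if x ≤ p then x else if x ≤ p + w then 2 * x - p else if x ≤ p + 2 * w then x + w
  else if x ≤ p + 4 * w then x / 2 + p / 2 + 2 * w else x

/-- its inverse -/
noncomputable def bg (p w y : ℝ) : ℝ :=
  if y ≤ p then y else if y ≤ p + 2 * w then (y + p) / 2 else if y ≤ p + 3 * w then y - w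
  else if y ≤ p + 4 * w then 2 * y - p - 4 * w else y

lemma bg_bf (p w x : ℝ) (hw : 0 < w) : bg p w (bf p w x) = x := by
  unfold bf bg
  split_ifs <;> linarith

lemma bf_bg (p w x : ℝ) (hw : 0 < w) : bf p w (bg p w x) = x := by
  unfold bf bg
  split_ifs <;> linarith

lemma bf_mono (p w : ℝ) (hw : 0 < w) : StrictMono (bf p w) := by
  intro x y h
  unfold bf
  split_ifs <;> linarith

lemma bf_mem (p w x : ℝ) (hw : 0 < w) (hp : 0 ≤ p) (hpw : p + 4 * w ≤ 1)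
    (hx : x ∈ Set.Icc (0 : ℝ) 1) : bf p w x ∈ Set.Icc (0 : ℝ) 1 := by
  rw [Set.mem_Icc] at hx ⊢
  unfold bf
  split_ifs <;> constructor <;> linarith [hx.1, hx.2]

lemma bg_mem (p w x : ℝ) (hw : 0 < w) (hp : 0 ≤ p) (hpw : p + 4 * w ≤ 1)
    (hx : x ∈ Set.Icc (0 : ℝ) 1) : bg p w x ∈ Set.Icc (0 : ℝ) 1 := by
  rw [Set.mem_Icc] at hx ⊢
  unfold bg
  split_ifs <;> constructor <;> linarith [hx.1, hx.2]

/-- the order automorphism -/
noncomputable def mk (p w : ℝ) (hw : 0 < w) (hp : 0 ≤ p) (hpw : p + 4 * w ≤ 1) :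
    Set.Icc (0 : ℝ) 1 ≃o Set.Icc (0 : ℝ) 1 where
  toFun x := ⟨bf p w x, bf_mem p w x hw hp hpw x.2⟩
  invFun x := ⟨bg p w x, bg_mem p w x hw hp hpw x.2⟩
  left_inv x := Subtype.ext (bg_bf p w x hw)
  right_inv x := Subtype.ext (bf_bg p w x hw)
  map_rel_iff' := by
    intro x y
    exact (bf_mono p w hw).le_iff_le

lemma mk_coe (p w : ℝ) (hw : 0 < w) (hp : 0 ≤ p) (hpw : p + 4 * w ≤ 1) (x : Set.Icc (0 : ℝ) 1) :
    ((mk p w hw hp hpw x : Set.Icc (0 : ℝ) 1) : ℝ) = bf p w x := rfl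

lemma mk_inv_coe (p w : ℝ) (hw : 0 < w) (hp : 0 ≤ p) (hpw : p + 4 * w ≤ 1) (x : Set.Icc (0 : ℝ) 1) :
    (((mk p w hw hp hpw)⁻¹ x : Set.Icc (0 : ℝ) 1) : ℝ) = bg p w x := rfl

lemma mk_thompson (p w : ℝ) (hw : 0 < w) (hp : 0 ≤ p) (hpw : p + 4 * w ≤ 1)
    (hpd : ∃ (a : ℤ) (k : ℕ), p = a / 2 ^ k) (hwd : ∃ (a : ℤ) (k : ℕ), w = a / 2 ^ k) :
    IsThompson (mk p w hw hp hpw) := by
  classical
  refine ⟨{p, p + w, p + 2 * w, p + 4 * w}, ?_, ?_⟩
  · obtain ⟨a, k, ha⟩ := hpd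
    obtain ⟨c, l, hc⟩ := hwd
    have hgen : ∀ j : ℤ, ∃ (a : ℤ) (k : ℕ), p + j * w = a / 2 ^ k := by
      intro j
      refine ⟨a * 2 ^ l + j * c * 2 ^ k, k + l, ?_⟩
      rw [ha, hc, pow_add]
      push_cast
      field_simp
    intro x hx
    simp only [Finset.mem_insert, Finset.mem_singleton] at hx
    rcases hx with rfl | rfl | rfl | rfl
    · simpa using hgen 0
    · simpa using hgen 1
    · simpa using hgen 2
    · simpa using hgen 4
  · intro x y hxy hD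
    have hxy' : (x : ℝ) < y := hxy
    have h1 := hD p (by simp)
    have h2 := hD (p + w) (by simp)
    have h3 := hD (p + 2 * w) (by simp)
    have h4 := hD (p + 4 * w) (by simp)
    rw [not_and, not_lt] at h1 h2 h3 h4
    simp only [mk_coe]
    rcases lt_or_ge (x : ℝ) p with hx1 | hx1
    · have hy := h1 hx1
      refine ⟨0, fun z hz1 hz2 => ?_⟩
      have hz1' : (x : ℝ) ≤ z := hz1
      have hz2' : (z : ℝ) ≤ y := hz2
      unfold bf
      rw [if_pos (by linarith), if_pos (by linarith), zpow_zero]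
      ring
    rcases lt_or_ge (x : ℝ) (p + w) with hx2 | hx2
    · have hy := h2 hx2
      refine ⟨1, fun z hz1 hz2 => ?_⟩
      have hz1' : (x : ℝ) ≤ z := hz1
      have hz2' : (z : ℝ) ≤ y := hz2
      rw [zpow_one]
      unfold bf
      split_ifs <;> linarith
    rcases lt_or_ge (x : ℝ) (p + 2 * w) with hx3 | hx3
    · have hy := h3 hx3
      refine ⟨0, fun z hz1 hz2 => ?_⟩
      have hz1' : (x : ℝ) ≤ z := hz1
      have hz2' : (z : ℝ) ≤ y := hz2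
      rw [zpow_zero]
      unfold bf
      split_ifs <;> linarith
    rcases lt_or_ge (x : ℝ) (p + 4 * w) with hx4 | hx4
    · have hy := h4 hx4
      refine ⟨-1, fun z hz1 hz2 => ?_⟩
      have hz1' : (x : ℝ) ≤ z := hz1
      have hz2' : (z : ℝ) ≤ y := hz2
      rw [zpow_neg_one]
      unfold bf
      split_ifs <;> linarith
    · refine ⟨0, fun z hz1 hz2 => ?_⟩
      have hz1' : (x : ℝ) ≤ z := hz1
      have hz2' : (z : ℝ) ≤ y := hz2
      rw [zpow_zero]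
      unfold bf
      split_ifs <;> linarith

/-- the element of `F` -/
noncomputable def el (p w : ℝ) (hw : 0 < w) (hp : 0 ≤ p) (hpw : p + 4 * w ≤ 1)
    (hpd : ∃ (a : ℤ) (k : ℕ), p = a / 2 ^ k) (hwd : ∃ (a : ℤ) (k : ℕ), w = a / 2 ^ k) : ThF :=
  ⟨mk p w hw hp hpw, Subgroup.subset_closure (mk_thompson p w hw hp hpw hpd hwd)⟩

lemma bf_low (p w x : ℝ) (hx : x ≤ p) : bf p w x = x := by
  unfold bf
  rw [if_pos hx]

lemma bf_high (p w x : ℝ) (hw : 0 < w) (hx : p + 4 * w < x) : bf p w x = x := by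
  unfold bf
  rw [if_neg (by linarith), if_neg (by linarith), if_neg (by linarith), if_neg (by linarith)]

lemma bf_high' (p w x : ℝ) (hw : 0 < w) (hx : p + 4 * w ≤ x) : bf p w x = x := by
  rcases hx.lt_or_eq with h | h
  · exact bf_high p w x hw h
  · rw [← h]
    unfold bf
    rw [if_neg (by linarith), if_neg (by linarith), if_neg (by linarith), if_pos le_rfl]
    ring

lemma bf_comm (p w p' w' x : ℝ) (hw : 0 < w) (hw' : 0 < w') (h : p + 4 * w ≤ p') :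
    bf p w (bf p' w' x) = bf p' w' (bf p w x) := by
  rcases le_or_gt x p' with hx | hx
  · rw [bf_low p' w' x hx]
    rcases le_or_gt x (p + 4 * w) with hx' | hx'
    · have h1 : bf p w x ≤ p + 4 * w := by
        have := (bf_mono p w hw).monotone hx'
        rwa [bf_high' p w (p + 4 * w) hw le_rfl] at this
      rw [bf_low p' w' _ (by linarith)]
    · rw [bf_high p w x hw hx', bf_low p' w' x hx]
  · rw [bf_high' p w x hw (by linarith)]
    have h1 : p' ≤ bf p' w' x := by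
      have := (bf_mono p' w' hw').monotone hx.le
      rwa [bf_low p' w' p' le_rfl] at this
    rw [bf_high' p w _ hw (by linarith)]

lemma el_coe (p w : ℝ) (hw : 0 < w) (hp : 0 ≤ p) (hpw : p + 4 * w ≤ 1)
    (hpd : ∃ (a : ℤ) (k : ℕ), p = a / 2 ^ k) (hwd : ∃ (a : ℤ) (k : ℕ), w = a / 2 ^ k)
    (x : Set.Icc (0 : ℝ) 1) :
    ((((el p w hw hp hpw hpd hwd : ThF) : Set.Icc (0 : ℝ) 1 ≃o Set.Icc (0 : ℝ) 1) x :
      Set.Icc (0 : ℝ) 1) : ℝ) = bf p w x := rfl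

lemma el_inv_coe (p w : ℝ) (hw : 0 < w) (hp : 0 ≤ p) (hpw : p + 4 * w ≤ 1)
    (hpd : ∃ (a : ℤ) (k : ℕ), p = a / 2 ^ k) (hwd : ∃ (a : ℤ) (k : ℕ), w = a / 2 ^ k)
    (x : Set.Icc (0 : ℝ) 1) :
    (((((el p w hw hp hpw hpd hwd : ThF) : Set.Icc (0 : ℝ) 1 ≃o Set.Icc (0 : ℝ) 1))⁻¹ x :
      Set.Icc (0 : ℝ) 1) : ℝ) = bg p w x := rfl

lemma el_comm (p w p' w' : ℝ) (hw : 0 < w) (hp : 0 ≤ p) (hpw : p + 4 * w ≤ 1)
    (hpd : ∃ (a : ℤ) (k : ℕ), p = a / 2 ^ k) (hwd : ∃ (a : ℤ) (k : ℕ), w = a / 2 ^ k)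
    (hw' : 0 < w') (hp' : 0 ≤ p') (hpw' : p' + 4 * w' ≤ 1)
    (hpd' : ∃ (a : ℤ) (k : ℕ), p' = a / 2 ^ k) (hwd' : ∃ (a : ℤ) (k : ℕ), w' = a / 2 ^ k)
    (h : p + 4 * w ≤ p') :
    el p w hw hp hpw hpd hwd * el p' w' hw' hp' hpw' hpd' hwd' =
      el p' w' hw' hp' hpw' hpd' hwd' * el p w hw hp hpw hpd hwd := by
  refine Subtype.ext (OrderIso.ext (funext fun x => Subtype.ext ?_))
  rw [Subgroup.coe_mul, Subgroup.coe_mul, RelIso.mul_apply, RelIso.mul_apply, el_coe, el_coe,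
    el_coe, el_coe]
  exact bf_comm p w p' w' x hw hw' h

theorem thf_thm : S_THF := by
  have d0 : ∃ (a : ℤ) (k : ℕ), (0 : ℝ) = a / 2 ^ k := ⟨0, 0, by norm_num⟩
  have d4 : ∃ (a : ℤ) (k : ℕ), (1 / 4 : ℝ) = a / 2 ^ k := ⟨1, 2, by norm_num⟩
  have d2 : ∃ (a : ℤ) (k : ℕ), (1 / 2 : ℝ) = a / 2 ^ k := ⟨1, 1, by norm_num⟩
  have d8 : ∃ (a : ℤ) (k : ℕ), (1 / 8 : ℝ) = a / 2 ^ k := ⟨1, 3, by norm_num⟩
  have d16 : ∃ (a : ℤ) (k : ℕ), (1 / 16 : ℝ) = a / 2 ^ k := ⟨1, 4, by norm_num⟩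
  refine ⟨el 0 (1 / 8) (by norm_num) (by norm_num) (by norm_num) d0 d8,
    el 0 (1 / 16) (by norm_num) (by norm_num) (by norm_num) d0 d16,
    el 0 (1 / 8) (by norm_num) (by norm_num) (by norm_num) d0 d8,
    el (1 / 4) (1 / 16) (by norm_num) (by norm_num) (by norm_num) d4 d16,
    el (1 / 2) (1 / 8) (by norm_num) (by norm_num) (by norm_num) d2 d8,
    el (1 / 2) (1 / 16) (by norm_num) (by norm_num) (by norm_num) d2 d16, ?_, ?_, ?_⟩
  · intro a ha b hb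
    simp only [List.mem_cons, List.not_mem_nil, or_false] at ha hb
    rcases ha with rfl | rfl | rfl | rfl <;> rcases hb with rfl | rfl <;>
      exact el_comm _ _ _ _ _ _ _ _ _ _ _ _ _ _ (by norm_num)
  · intro h
    have hm : (13 / 64 : ℝ) ∈ Set.Icc (0 : ℝ) 1 := by constructor <;> norm_num
    have h1 := congrArg (fun g : ThF => (((g : Set.Icc (0 : ℝ) 1 ≃o Set.Icc (0 : ℝ) 1)
      ⟨13 / 64, hm⟩ : Set.Icc (0 : ℝ) 1) : ℝ)) h
    simp only [Subgroup.coe_mul, Subgroup.coe_inv, RelIso.mul_apply, el_coe, el_inv_coe] at h1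
    norm_num [bf, bg] at h1
  · intro h
    have hm : (9 / 16 : ℝ) ∈ Set.Icc (0 : ℝ) 1 := by constructor <;> norm_num
    have h1 := congrArg (fun g : ThF => (((g : Set.Icc (0 : ℝ) 1 ≃o Set.Icc (0 : ℝ) 1)
      ⟨9 / 16, hm⟩ : Set.Icc (0 : ℝ) 1) : ℝ)) h
    simp only [Subgroup.coe_mul, RelIso.mul_apply, el_coe] at h1
    norm_num [bf, bg] at h1

end Pool.Agent.Helper34.OL
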