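import Pool.Agent.Helper40.OL.Spec

set_option autoImplicit false

namespace Pool.Agent.Helper34.OL

open Pool.Agent.Helper40.OL

/-- dyadic rationals -/
def Dy (x : ℝ) : Prop := ∃ (a : ℤ) (k : ℕ), x = a / 2 ^ k

lemma Dy.add {x y : ℝ} (hx : Dy x) (hy : Dy y) : Dy (x + y) := by
  obtain ⟨a, k, rfl⟩ := hx
  obtain ⟨c, l, rfl⟩ := hy
  refine ⟨a * 2 ^ l + c * 2 ^ k, k + l, ?_⟩
  rw [pow_add]
  push_cast
  field_simp

lemma Dy.neg {x : ℝ} (hx : Dy x) : Dy (-x) := by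
  obtain ⟨a, k, rfl⟩ := hx
  refine ⟨-a, k, ?_⟩
  push_cast
  ring

lemma Dy.sub {x y : ℝ} (hx : Dy x) (hy : Dy y) : Dy (x - y) := by
  rw [sub_eq_add_neg]
  exact hx.add hy.neg

lemma Dy.zpow {x : ℝ} (hx : Dy x) (n : ℤ) : Dy ((2 : ℝ) ^ n * x) := by
  obtain ⟨a, k, rfl⟩ := hx
  rcases le_total 0 n with h | h
  · obtain ⟨m, rfl⟩ := Int.eq_ofNat_of_zero_le h
    refine ⟨2 ^ m * a, k, ?_⟩
    rw [zpow_natCast]
    push_cast
    ring
  · obtain ⟨m, hm⟩ := Int.eq_ofNat_of_zero_le (neg_nonneg.2 h)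
    have hn : n = -(m : ℤ) := by omega
    refine ⟨a, k + m, ?_⟩
    rw [hn, zpow_neg, zpow_natCast, pow_add]
    field_simp

lemma Dy.zero : Dy 0 := ⟨0, 0, by norm_num⟩

lemma map_zero' (g : Set.Icc (0 : ℝ) 1 ≃o Set.Icc (0 : ℝ) 1) (h : (0 : ℝ) ∈ Set.Icc (0 : ℝ) 1) :
    ((g ⟨0, h⟩ : Set.Icc (0 : ℝ) 1) : ℝ) = 0 := by
  have h1 : g ⟨0, h⟩ ≤ g (g.symm ⟨0, h⟩) := g.monotone (by
    rw [← Subtype.coe_le_coe]
    exact (g.symm ⟨0, h⟩).2.1)
  rw [OrderIso.apply_symm_apply] at h1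
  exact le_antisymm h1 (g ⟨0, h⟩).2.1

lemma dy_map {g : Set.Icc (0 : ℝ) 1 ≃o Set.Icc (0 : ℝ) 1} {D : Finset ℝ} (hD : ∀ x ∈ D, Dy x)
    (h : ∀ x y : Set.Icc (0 : ℝ) 1, x < y → (∀ t ∈ D, ¬ ((x : ℝ) < t ∧ t < y)) →
      ∃ n : ℤ, ∀ z : Set.Icc (0 : ℝ) 1, x ≤ z → z ≤ y →
        ((g z : ℝ) = g x + (2 : ℝ) ^ n * (z - x))) :
    (∀ x : Set.Icc (0 : ℝ) 1, Dy x → Dy (g x)) ∧ ∀ x : Set.Icc (0 : ℝ) 1, Dy (g x) → Dy x := by
  classical
  have h01 : (0 : ℝ) ∈ Set.Icc (0 : ℝ) 1 := ⟨le_rfl, zero_le_one⟩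
  have key : ∀ x : Set.Icc (0 : ℝ) 1, (0 : ℝ) < x → ∃ t : Set.Icc (0 : ℝ) 1, t < x ∧ Dy t ∧
      ((t : ℝ) = 0 ∨ (0 < (t : ℝ) ∧ (t : ℝ) ∈ D)) ∧
      ∃ n : ℤ, (g x : ℝ) = g t + (2 : ℝ) ^ n * (x - t) := by
    intro x hx
    rcases (D.filter fun t => 0 < t ∧ t < (x : ℝ)).eq_empty_or_nonempty with h0 | h0
    · refine ⟨⟨0, h01⟩, hx, Dy.zero, Or.inl rfl, ?_⟩
      obtain ⟨n, hn⟩ := h ⟨0, h01⟩ x hx (by
        intro t ht hcon
        have : t ∈ D.filter fun t => 0 < t ∧ t < (x : ℝ) := Finset.mem_filter.2 ⟨ht, hcon⟩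
        rw [h0] at this
        simp at this)
      exact ⟨n, hn x hx.le le_rfl⟩
    · have h1 := Finset.max'_mem _ h0
      set t := (D.filter fun t => 0 < t ∧ t < (x : ℝ)).max' h0 with ht
      rw [Finset.mem_filter] at h1
      have htI : t ∈ Set.Icc (0 : ℝ) 1 := ⟨h1.2.1.le, h1.2.2.le.trans x.2.2⟩
      refine ⟨⟨t, htI⟩, h1.2.2, hD t h1.1, Or.inr ⟨h1.2.1, h1.1⟩, ?_⟩
      obtain ⟨n, hn⟩ := h ⟨t, htI⟩ x h1.2.2 (by
        intro r hr hcon
        have h2 : r ∈ D.filter fun t => 0 < t ∧ t < (x : ℝ) :=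
          Finset.mem_filter.2 ⟨hr, h1.2.1.trans hcon.1, hcon.2⟩
        have h3 := Finset.le_max' _ _ h2
        rw [← ht] at h3
        exact absurd hcon.1 (not_lt.2 h3))
      refine ⟨n, hn x ?_ le_rfl⟩
      exact h1.2.2.le
  have fwd : ∀ n : ℕ, ∀ x : Set.Icc (0 : ℝ) 1, (D.filter fun t => t < (x : ℝ)).card ≤ n →
      Dy x → Dy (g x) := by
    intro n
    induction n with
    | zero =>
      intro x hx hdx
      rcases eq_or_lt_of_le x.2.1 with h0 | h0
      · have : x = ⟨0, h01⟩ := Subtype.ext h0.symm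
        rw [this, map_zero']
        exact Dy.zero
      · obtain ⟨t, ht, hdt, h1, n, hn⟩ := key x h0
        rcases h1 with h1 | h1
        · have : t = ⟨0, h01⟩ := Subtype.ext h1
          rw [hn, this, map_zero']
          exact Dy.zero.add ((hdx.sub Dy.zero).zpow n)
        · exfalso
          have h2 : (t : ℝ) ∈ D.filter fun t => t < (x : ℝ) := Finset.mem_filter.2 ⟨h1.2, ht⟩
          have := Finset.card_pos.2 ⟨_, h2⟩
          omega
    | succ n ih =>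
      intro x hx hdx
      rcases eq_or_lt_of_le x.2.1 with h0 | h0
      · have : x = ⟨0, h01⟩ := Subtype.ext h0.symm
        rw [this, map_zero']
        exact Dy.zero
      · obtain ⟨t, ht, hdt, h1, m, hm⟩ := key x h0
        rcases h1 with h1 | h1
        · have : t = ⟨0, h01⟩ := Subtype.ext h1
          rw [hm, this, map_zero']
          exact Dy.zero.add ((hdx.sub Dy.zero).zpow m)
        · have h2 : (D.filter fun r => r < (t : ℝ)).card < (D.filter fun r => r < (x : ℝ)).card := by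
            refine Finset.card_lt_card ?_
            rw [Finset.ssubset_iff_of_subset]
            · refine ⟨t, Finset.mem_filter.2 ⟨h1.2, ht⟩, ?_⟩
              rw [Finset.mem_filter]
              exact fun hh => lt_irrefl _ hh.2
            · intro r hr
              rw [Finset.mem_filter] at hr ⊢
              exact ⟨hr.1, hr.2.trans ht⟩
          rw [hm]
          exact (ih t (by omega) hdt).add ((hdx.sub hdt).zpow m)
  have fwd' : ∀ x : Set.Icc (0 : ℝ) 1, Dy x → Dy (g x) := fun x hx => fwd _ x le_rfl hx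
  refine ⟨fwd', fun x hx => ?_⟩
  rcases eq_or_lt_of_le x.2.1 with h0 | h0
  · rw [← h0]
    exact Dy.zero
  · obtain ⟨t, ht, hdt, h1, m, hm⟩ := key x h0
    have e : (x : ℝ) = t + (2 : ℝ) ^ (-m) * (g x - g t) := by
      rw [hm, zpow_neg]
      field_simp
      ring
    rw [e]
    exact hdt.add ((hx.sub (fwd' t hdt)).zpow (-m))

lemma th_one : IsThompson 1 := by
  refine ⟨∅, by simp, fun x y _ _ => ⟨0, fun z _ _ => ?_⟩⟩
  rw [zpow_zero]
  change (z : ℝ) = x + 1 * (z - x)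
  ring

lemma th_mul {f g : Set.Icc (0 : ℝ) 1 ≃o Set.Icc (0 : ℝ) 1} (hf : IsThompson f)
    (hg : IsThompson g) : IsThompson (f * g) := by
  classical
  obtain ⟨D, hD, hfD⟩ := hf
  obtain ⟨D', hD', hgD⟩ := hg
  have hdy := dy_map (g := g) hD' hgD
  refine ⟨D' ∪ (D.filter fun t => t ∈ Set.Icc (0 : ℝ) 1).attach.image
    (fun t => ((g.symm ⟨t.1, (Finset.mem_filter.1 t.2).2⟩ : Set.Icc (0 : ℝ) 1) : ℝ)), ?_, ?_⟩
  · intro x hx
    rw [Finset.mem_union, Finset.mem_image] at hx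
    rcases hx with hx | ⟨t, _, rfl⟩
    · exact hD' x hx
    · refine hdy.2 _ ?_
      rw [OrderIso.apply_symm_apply]
      exact hD _ (Finset.mem_filter.1 t.2).1
  · intro x y hxy hno
    obtain ⟨n, hn⟩ := hgD x y hxy fun t ht => hno t (Finset.mem_union_left _ ht)
    obtain ⟨m, hm⟩ := hfD (g x) (g y) (g.strictMono hxy) (by
      intro t ht hcon
      have htI : t ∈ Set.Icc (0 : ℝ) 1 :=
        ⟨(g x).2.1.trans hcon.1.le, hcon.2.le.trans (g y).2.2⟩
      have htf : t ∈ D.filter fun t => t ∈ Set.Icc (0 : ℝ) 1 := Finset.mem_filter.2 ⟨ht, htI⟩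
      refine hno _ (Finset.mem_union_right _ (Finset.mem_image.2
        ⟨⟨t, htf⟩, Finset.mem_attach _ _, rfl⟩)) ⟨?_, ?_⟩
      · have : x < g.symm ⟨t, htI⟩ := by
          rw [OrderIso.lt_symm_apply]
          exact hcon.1
        exact this
      · have : g.symm ⟨t, htI⟩ < y := by
          rw [OrderIso.symm_apply_lt]
          exact hcon.2
        exact this)
    refine ⟨m + n, fun z hz1 hz2 => ?_⟩
    rw [RelIso.mul_apply, RelIso.mul_apply, hm (g z) (g.monotone hz1) (g.monotone hz2),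
      hn z hz1 hz2, zpow_add₀ (by norm_num)]
    ring

lemma th_inv {g : Set.Icc (0 : ℝ) 1 ≃o Set.Icc (0 : ℝ) 1} (hg : IsThompson g) :
    IsThompson g⁻¹ := by
  classical
  obtain ⟨D, hD, hgD⟩ := hg
  have hdy := dy_map (g := g) hD hgD
  have hinv : ∀ x, g⁻¹ x = g.symm x := fun x => rfl
  refine ⟨(D.filter fun t => t ∈ Set.Icc (0 : ℝ) 1).attach.image
    (fun t => ((g ⟨t.1, (Finset.mem_filter.1 t.2).2⟩ : Set.Icc (0 : ℝ) 1) : ℝ)), ?_, ?_⟩
  · intro x hx
    rw [Finset.mem_image] at hx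
    obtain ⟨t, _, rfl⟩ := hx
    exact hdy.1 _ (hD _ (Finset.mem_filter.1 t.2).1)
  · intro x y hxy hno
    have hxy' : g.symm x < g.symm y := g.symm.strictMono hxy
    obtain ⟨n, hn⟩ := hgD (g.symm x) (g.symm y) hxy' (by
      intro t ht hcon
      have htI : t ∈ Set.Icc (0 : ℝ) 1 :=
        ⟨(g.symm x).2.1.trans hcon.1.le, hcon.2.le.trans (g.symm y).2.2⟩
      have htf : t ∈ D.filter fun t => t ∈ Set.Icc (0 : ℝ) 1 := Finset.mem_filter.2 ⟨ht, htI⟩
      refine hno _ (Finset.mem_image.2 ⟨⟨t, htf⟩, Finset.mem_attach _ _, rfl⟩) ⟨?_, ?_⟩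
      · have : x < g ⟨t, htI⟩ := by
          rw [← OrderIso.symm_apply_lt]
          exact hcon.1
        exact this
      · have : g ⟨t, htI⟩ < y := by
          rw [← OrderIso.lt_symm_apply]
          exact hcon.2
        exact this)
    refine ⟨-n, fun z hz1 hz2 => ?_⟩
    have h1 := hn (g.symm z) (g.symm.monotone hz1) (g.symm.monotone hz2)
    rw [OrderIso.apply_symm_apply, OrderIso.apply_symm_apply] at h1
    rw [hinv, hinv, h1, zpow_neg]
    field_simp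
    ring

theorem thgrp_thm : S_THGRP := by
  intro f
  constructor
  · intro hf
    unfold ThF at hf
    induction hf using Subgroup.closure_induction with
    | mem x hx => exact hx
    | one => exact th_one
    | mul x y _ _ hx hy => exact th_mul hx hy
    | inv x _ hx => exact th_inv hx
  · intro hf
    exact Subgroup.subset_closure hf

end Pool.Agent.Helper34.OL
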