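import Pool.Agent.Helper40.OL.Spec

set_option autoImplicit false

namespace Pool.Agent.Helper34.OL

open Pool.Agent.Helper40.OL

variable {G : Type} [Group G]

/-- the faces with the same top vertex -/
inductive Fc (S : SplitSys G) (x : Vt S) : List ℕ → Cb S → Prop
  | base (a : ℕ) (L : List ℕ) : Fc S x (a :: L) (sV S a x, L.map (· + 1))
  | step (a : ℕ) (L : List ℕ) (c : Cb S) (h : Fc S x L c) : Fc S x (a :: L) (c.1, a :: c.2)

lemma sV_comm (S : SplitSys G) (x : Vt S) (a b : ℕ) (hab : a < b) (hb : b < x.1) :
    sV S (b + 1) (sV S a x) = sV S a (sV S b x) := by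
  obtain ⟨n, v⟩ := x
  unfold sV
  simp only
  rw [S.s_s n a b v hab hb]

lemma fb_face (S : SplitSys G) (x : Vt S) (L : List ℕ) :
    ∀ c ∈ (fbRec S x L).support, Fc S x L c := by
  classical
  induction L with
  | nil =>
    intro c hc
    simp [fbRec] at hc
  | cons a L ih =>
    intro c hc
    unfold fbRec at hc
    have h1 := Finsupp.support_sub hc
    rw [Finset.mem_union] at h1
    rcases h1 with h1 | h1
    · have h2 := Finsupp.support_single_subset h1
      rw [Finset.mem_singleton] at h2
      rw [h2]
      exact Fc.base a L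
    · have h2 := Finsupp.mapDomain_support h1
      rw [Finset.mem_image] at h2
      obtain ⟨c', hc', rfl⟩ := h2
      exact Fc.step a L c' (ih c' hc')

lemma Fc_shift (S : SplitSys G) (x : Vt S) (a : ℕ) (L : List ℕ) (c : Cb S) (h : Fc S x L c)
    (h1 : ∀ b ∈ L, a < b) (h2 : ∀ b ∈ L, b < x.1) :
    Fc S (sV S a x) (L.map (· + 1)) (sV S a c.1, c.2.map (· + 1)) := by
  induction h with
  | base b L =>
    have hb1 := h1 b (List.mem_cons_self)
    have hb2 := h2 b (List.mem_cons_self)
    simp only [List.map_cons]
    rw [← sV_comm S x a b hb1 hb2]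
    exact Fc.base (b + 1) (L.map (· + 1))
  | step b L c _ ih =>
    simp only [List.map_cons]
    exact Fc.step (b + 1) (L.map (· + 1)) _ (ih (fun r hr => h1 r (List.mem_cons_of_mem _ hr))
      fun r hr => h2 r (List.mem_cons_of_mem _ hr))

lemma topV_map (S : SplitSys G) (L : List ℕ) : ∀ (k : ℕ) (x : Vt S),
    topV S k x (L.map (· + 1)) = topV S (k + 1) x L := by
  induction L with
  | nil => intro k x; rfl
  | cons a L ih =>
    intro k x
    simp only [List.map_cons, topV]
    have e : a + 1 + k = a + (k + 1) := by omega
    rw [ih, e]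

lemma topV_level (S : SplitSys G) (L : List ℕ) : ∀ (k : ℕ) (x : Vt S),
    (topV S k x L).1 = x.1 + L.length := by
  induction L with
  | nil => intro k x; rfl
  | cons a L ih =>
    intro k x
    simp only [topV, List.length_cons]
    rw [ih]
    unfold sV
    simp only
    omega

lemma top_face (S : SplitSys G) : ∀ (n : ℕ) (L : List ℕ) (x : Vt S) (c : Cb S), L.length = n →
    L.Pairwise (· < ·) → (∀ a ∈ L, a < x.1) → Fc S x L c → topV S 0 c.1 c.2 = topV S 0 x L := by
  intro n
  induction n with
  | zero =>
    intro L x c hL _ _ h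
    rw [List.length_eq_zero_iff] at hL
    subst hL
    cases h
  | succ n ih =>
    intro L x c hL hp hx h
    cases h with
    | base a L =>
      simp only [topV]
      rw [topV_map]
      rfl
    | step a L c' h' =>
      simp only [topV, add_zero, zero_add]
      rw [List.pairwise_cons] at hp
      have h1 : ∀ b ∈ L, b < x.1 := fun b hb => hx b (List.mem_cons_of_mem _ hb)
      have h2 := Fc_shift S x a L c' h' hp.1 h1
      have h3 := ih (L.map (· + 1)) (sV S a x) _ (by
          rw [List.length_map]
          simpa using hL) (by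
          rw [List.pairwise_map]
          exact hp.2.imp fun h => by omega) (by
          intro b hb
          rw [List.mem_map] at hb
          obtain ⟨b', hb', rfl⟩ := hb
          have := h1 b' hb'
          unfold sV
          simp only
          omega) h2
      simp only at h3
      rw [topV_map, topV_map] at h3
      exact h3

theorem top_thm : S_TOP := by
  intro G _ S k N x L hOk
  obtain ⟨h1, h2, h3, h4⟩ := hOk
  refine ⟨?_, fun c hc => top_face S _ L x c rfl h1 h2 (fb_face S x L c hc)⟩
  rw [topV_level]
  simp only at h3 h4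
  omega

end Pool.Agent.Helper34.OL
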